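import Pool.Agent.Helper6.EC_B.Goals

/-! Packet GL2 (MP_ecc237_nt, Part B): shifted integral for `I_0`. -/

open MeasureTheory Filter Topology Set

namespace EC237.PB.PkGL2

/-- The integrand. -/
noncomputable def F (t u φ : ℝ) : ℝ :=
  Real.exp (t * Real.cosh u * Real.cos φ) * Real.cos (t * Real.sinh u * Real.sin φ)

/-- Its `u`-derivative. -/
noncomputable def F' (t u φ : ℝ) : ℝ :=
  Real.exp (t * Real.cosh u * Real.cos φ) * (t * Real.sinh u * Real.cos φ)
      * Real.cos (t * Real.sinh u * Real.sin φ)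
    + Real.exp (t * Real.cosh u * Real.cos φ) *
      (-Real.sin (t * Real.sinh u * Real.sin φ) * (t * Real.cosh u * Real.sin φ))

/-- The primitive in `φ` of the `u`-derivative. -/
noncomputable def P (t u φ : ℝ) : ℝ :=
  Real.exp (t * Real.cosh u * Real.cos φ) * Real.sin (t * Real.sinh u * Real.sin φ)

theorem hasDerivAt_F (t u φ : ℝ) : HasDerivAt (fun u => F t u φ) (F' t u φ) u := by
  unfold F F'
  have h1 : HasDerivAt (fun u : ℝ => t * Real.cosh u * Real.cos φ)
      (t * Real.sinh u * Real.cos φ) u :=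
    ((Real.hasDerivAt_cosh u).const_mul t).mul_const _
  have h2 : HasDerivAt (fun u : ℝ => t * Real.sinh u * Real.sin φ)
      (t * Real.cosh u * Real.sin φ) u :=
    ((Real.hasDerivAt_sinh u).const_mul t).mul_const _
  exact h1.exp.mul h2.cos

theorem hasDerivAt_P (t u φ : ℝ) : HasDerivAt (fun φ => P t u φ) (F' t u φ) φ := by
  unfold P F'
  have h1 : HasDerivAt (fun φ : ℝ => t * Real.cosh u * Real.cos φ)
      (t * Real.cosh u * (-Real.sin φ)) φ := (Real.hasDerivAt_cos φ).const_mul _
  have h2 : HasDerivAt (fun φ : ℝ => t * Real.sinh u * Real.sin φ)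
      (t * Real.sinh u * Real.cos φ) φ := (Real.hasDerivAt_sin φ).const_mul _
  have h := h1.exp.mul h2.sin
  refine h.congr_deriv ?_
  ring

theorem continuous_F (t : ℝ) : Continuous (fun p : ℝ × ℝ => F t p.1 p.2) := by
  unfold F
  fun_prop

theorem continuous_F' (t : ℝ) : Continuous (fun p : ℝ × ℝ => F' t p.1 p.2) := by
  unfold F'
  fun_prop

theorem int_F' (t u : ℝ) : ∫ φ in (0:ℝ)..Real.pi, F' t u φ = 0 := by
  have hc : Continuous (fun φ => F' t u φ) :=
    (continuous_F' t).comp (Continuous.prodMk continuous_const continuous_id)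
  rw [intervalIntegral.integral_eq_sub_of_hasDerivAt (fun φ _ => hasDerivAt_P t u φ)
    (hc.intervalIntegrable _ _)]
  simp [P]

theorem hasDerivAt_H (t u : ℝ) :
    HasDerivAt (fun u => ∫ φ in (0:ℝ)..Real.pi, F t u φ) 0 u := by
  have hK : IsCompact (Icc (u - 1) (u + 1) ×ˢ Icc (0:ℝ) Real.pi) :=
    isCompact_Icc.prod isCompact_Icc
  obtain ⟨C, hC⟩ := hK.exists_bound_of_continuousOn (continuous_F' t).continuousOn
  have hcF : ∀ u, Continuous (fun φ => F t u φ) := fun u =>
    (continuous_F t).comp (Continuous.prodMk continuous_const continuous_id)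
  have hcF' : ∀ u, Continuous (fun φ => F' t u φ) := fun u =>
    (continuous_F' t).comp (Continuous.prodMk continuous_const continuous_id)
  have h := intervalIntegral.hasDerivAt_integral_of_dominated_loc_of_deriv_le
    (μ := volume) (a := 0) (b := Real.pi) (F := F t) (F' := F' t) (x₀ := u)
    (s := Icc (u - 1) (u + 1)) (bound := fun _ => C)
    (Icc_mem_nhds (by linarith) (by linarith))
    (Eventually.of_forall fun x => (hcF x).aestronglyMeasurable)
    ((hcF u).intervalIntegrable _ _)
    (hcF' u).aestronglyMeasurable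
    (Eventually.of_forall fun φ hφ x hx => by
      rw [uIoc_of_le Real.pi_pos.le] at hφ
      exact hC (x, φ) ⟨hx, ⟨hφ.1.le, hφ.2⟩⟩)
    intervalIntegrable_const
    (Eventually.of_forall fun φ _ x _ => hasDerivAt_F t x φ)
  have h2 := h.2
  rwa [int_F'] at h2

theorem thm : G_GL2 := by
  intro t u
  have hconst : ∀ x y : ℝ, (∫ φ in (0:ℝ)..Real.pi, F t x φ) = ∫ φ in (0:ℝ)..Real.pi, F t y φ :=
    is_const_of_deriv_eq_zero (fun x => (hasDerivAt_H t x).differentiableAt)
      (fun x => (hasDerivAt_H t x).deriv)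
  have h := hconst u 0
  have h0 : (∫ φ in (0:ℝ)..Real.pi, F t 0 φ) = ∫ θ in (0:ℝ)..Real.pi, Real.exp (t * Real.cos θ) := by
    refine intervalIntegral.integral_congr fun φ _ => ?_
    simp [F]
  unfold Ib
  rw [← h0, ← h]
  rfl

end EC237.PB.PkGL2
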